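import Pool.Agent.Q98.SPN.Stm

/-!
# Project GSP, package ADJ (helper653)
-/

set_option autoImplicit false

open scoped Matrix.Norms.L2Operator Matrix
open Finset

namespace Pool.Agent.U653.GSP.ADJ

open Pool.Agent.Q98.SPN

theorem sum_single {G : Type} [Group G] [Fintype G] (a : MonoidAlgebra ℂ G) :
    ∑ g : G, MonoidAlgebra.single g (a.coeff g) = a := by
  apply MonoidAlgebra.ext
  apply Finsupp.ext
  intro x
  rw [MonoidAlgebra.coeff_sum, Finsupp.finsetSum_apply]
  rw [Finset.sum_eq_single x]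
  · rw [MonoidAlgebra.coeff_single, Finsupp.single_eq_same]
  · intro y _ hy
    rw [MonoidAlgebra.coeff_single, Finsupp.single_eq_of_ne (Ne.symm hy)]
  · intro h
    exact absurd (mem_univ x) h

theorem adj_eq {G : Type} [Group G] [Fintype G] (a : MonoidAlgebra ℂ G) :
    adj a = ∑ g : G, MonoidAlgebra.single g⁻¹ (star (a.coeff g)) := by
  unfold adj
  rw [← Equiv.sum_comp (Equiv.inv G)]
  simp

theorem t_ADJ : S_ADJ := by
  intro G _ _ k d Ψ hΨ a
  have hsm : ∀ (g : G) (c : ℂ), MonoidAlgebra.single g c = c • MonoidAlgebra.single g (1 : ℂ) := by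
    intro g c
    rw [MonoidAlgebra.smul_single, smul_eq_mul, mul_one]
  have hinv : ∀ (g : G) (i : Fin k), Ψ (MonoidAlgebra.single g⁻¹ 1) i =
      (Ψ (MonoidAlgebra.single g 1) i)ᴴ := by
    intro g i
    have h1 := hΨ.unitary g i
    have h2 : Ψ (MonoidAlgebra.single g 1) i * Ψ (MonoidAlgebra.single g⁻¹ 1) i = 1 := by
      rw [← Pi.mul_apply, ← map_mul, MonoidAlgebra.single_mul_single, mul_inv_cancel, mul_one,
        ← MonoidAlgebra.one_def, map_one, Pi.one_apply]
    calc Ψ (MonoidAlgebra.single g⁻¹ 1) i =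
        ((Ψ (MonoidAlgebra.single g 1) i)ᴴ * Ψ (MonoidAlgebra.single g 1) i) *
          Ψ (MonoidAlgebra.single g⁻¹ 1) i := by rw [h1, one_mul]
      _ = (Ψ (MonoidAlgebra.single g 1) i)ᴴ := by rw [mul_assoc, h2, mul_one]
  constructor
  · intro i
    have h3 : Ψ a i = ∑ g : G, a.coeff g • Ψ (MonoidAlgebra.single g 1) i := by
      conv_lhs => rw [← sum_single a]
      rw [map_sum, Finset.sum_apply]
      apply sum_congr rfl
      intro g _
      rw [hsm g (a.coeff g), map_smul, Pi.smul_apply]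
    rw [h3, adj_eq, map_sum, Finset.sum_apply, Matrix.conjTranspose_sum]
    apply sum_congr rfl
    intro g _
    rw [hsm g⁻¹ _, map_smul, Pi.smul_apply, Matrix.conjTranspose_smul, hinv]
  · have h4 : ∀ (g : G), ((MonoidAlgebra.single g⁻¹ (star (a.coeff g))) * a).coeff 1 =
        ((‖a.coeff g‖ ^ 2 : ℝ) : ℂ) := by
      intro g
      rw [MonoidAlgebra.coeff_single_mul_apply, inv_inv, mul_one]
      have h5 : star (a.coeff g) * a.coeff g = (((Complex.normSq (a.coeff g)) : ℝ) : ℂ) := by
        rw [Complex.star_def, ← Complex.normSq_eq_conj_mul_self]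
      rw [h5, Complex.normSq_eq_norm_sq]
    rw [adj_eq, sum_mul, MonoidAlgebra.coeff_sum, Finsupp.finsetSum_apply]
    push_cast
    apply sum_congr rfl
    intro g _
    rw [h4]
    push_cast
    rfl

end Pool.Agent.U653.GSP.ADJ
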